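import Pool.Agent.X79.RW8

set_option autoImplicit false

/-!
# Reconstruction from one card and walk data

`T(G)` is the set of nonempty cliques of `G` ordered by inclusion.

A colouring of the vertices of `G` is *robust* if it arises from the constant colouring by
refinements which tolerate an error of one: if `χ` is robust, then so is every colouring `ψ` which
gives the same colour to any two vertices `x`, `y` of the same `χ`-colour for which the numbers of
neighbours in the single colours of `χ` agree, with the possible exception of one colour for which
they may differ by one.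

The theorem is about a vertex `v` of a graph `G` with at least three vertices.

(1) Suppose that for every `k` the function which counts the walks with `k` edges from `x` to `v`
lies in the full space of `G` (the span of the functions which count the walks of a given length
from `x` into a colour of a robust colouring and of the indicator functions of the exact one-step
refinements of the robust colourings), and that any two vertices of `G - v` which have the same
walk numbers in `G - v` into the colours of the robust colourings of `G` are twins in `G - v`.
Then `T(G)` and `T(Gᶜ)` are reconstructible.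

(2) Let `c` be the codimension of the card space: the span of the functions which count the walks
of `G - v` of a given length from `x` into a colour, of the indicator functions of the one-step
refinements with respect to `G - v`, and of the indicator function of `v`. Then there are at most
`2 ^ c` isomorphism types of truncated clique lattices with the same deck as `T(G)`, and the same
for the complement.

(3) `T(G)` and `T(Gᶜ)` are reconstructible if every graph `G'` with `G' - v = G - v` which has the
same walk data as `G` (coloured walk numbers, closed walk numbers, numbers of neighbours in the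
classes of the one-step refinements, all of them vertex by vertex up to a permutation of the
vertices which fixes `v` and preserves the robust colourings) is isomorphic to `G`.
-/

namespace Pool.Agent.Results.MP_552896_co.OneCard

/-- The truncated clique lattices of `G` and `H` have the same deck of maximal filter deleted
subsets: some bijection `f` of the vertex sets is such that, for every vertex `v`, the nonempty
cliques of `G` avoiding `v` and the nonempty cliques of `H` avoiding `f v`, both ordered by
inclusion, are isomorphic ordered sets. -/
def SameDeck {V W : Type} (G : SimpleGraph V) (H : SimpleGraph W) : Prop :=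
  ∃ f : V ≃ W, ∀ v : V,
    Nonempty ({s : Finset V // s.Nonempty ∧ G.IsClique (s : Set V) ∧ v ∉ s} ≃o
      {t : Finset W // t.Nonempty ∧ H.IsClique (t : Set W) ∧ f v ∉ t})

/-- `T(G)` is reconstructible from its deck: every truncated clique lattice `T(H)` of a finite
graph `H` with the same deck is isomorphic to `T(G)`. -/
def Reconstructible {V : Type} (G : SimpleGraph V) : Prop :=
  ∀ (W : Type) [Fintype W] (H : SimpleGraph W), SameDeck G H →
    Nonempty ({s : Finset V // s.Nonempty ∧ G.IsClique (s : Set V)} ≃o
      {t : Finset W // t.Nonempty ∧ H.IsClique (t : Set W)})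

/-- There are at most `m` isomorphism types of truncated clique lattices `T(H)` of finite graphs
`H` with the same deck as `T(G)`: every finite family of pairwise non-isomorphic such lattices has
at most `m` members. -/
def AtMost {V : Type} (G : SimpleGraph V) (m : ℕ) : Prop :=
  ∀ (ι : Type) [Fintype ι] (W : ι → Type) [∀ i, Fintype (W i)] (H : ∀ i, SimpleGraph (W i)),
    (∀ i, SameDeck G (H i)) →
    (∀ i j, i ≠ j → IsEmpty ({s : Finset (W i) // s.Nonempty ∧ (H i).IsClique (s : Set (W i))} ≃o
      {t : Finset (W j) // t.Nonempty ∧ (H j).IsClique (t : Set (W j))})) →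
    Fintype.card ι ≤ m

/-- The graph `G` with all edges at the vertex `v` removed (so that a walk which starts at another
vertex is a walk of `G - v`). -/
def cut {V : Type} (G : SimpleGraph V) (v : V) : SimpleGraph V where
  Adj x y := G.Adj x y ∧ x ≠ v ∧ y ≠ v
  symm := ⟨fun _ _ h => ⟨h.1.symm, h.2.2, h.2.1⟩⟩
  loopless := ⟨fun _ h => h.1.ne rfl⟩

section
variable {V : Type} [Fintype V]

open Classical in
/-- The number of neighbours of `x` with colour `a`. -/
noncomputable def colourDeg (G : SimpleGraph V) (χ : V → ℕ) (a : ℕ) (x : V) : ℕ :=
  (Finset.univ.filter (fun y => G.Adj x y ∧ χ y = a)).card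

open Classical in
/-- The number of neighbours of `x` which have colour `c` and exactly `μ a` neighbours of colour
`a`, for every colour `a`. -/
noncomputable def classDeg (G : SimpleGraph V) (χ : V → ℕ) (c : ℕ) (μ : ℕ → ℕ) (x : V) : ℕ :=
  (Finset.univ.filter (fun y => G.Adj x y ∧ χ y = c ∧ ∀ a, colourDeg G χ a y = μ a)).card

/-- Robust colourings: the constant colouring is robust, and if `χ` is robust then so is every
colouring `ψ` which gives the same colour to any two vertices `x`, `y` of the same `χ`-colour for
which the numbers of neighbours of colour `a` agree for all colours `a` except possibly one colour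
`b`, for which they differ by at most one. -/
inductive Robust (G : SimpleGraph V) : (V → ℕ) → Prop
  | const : Robust G (fun _ => 0)
  | refine (χ ψ : V → ℕ) : Robust G χ →
      (∀ x y b, χ x = χ y → (∀ a, a ≠ b → colourDeg G χ a x = colourDeg G χ a y) →
        colourDeg G χ b x ≤ colourDeg G χ b y + 1 → colourDeg G χ b y ≤ colourDeg G χ b x + 1 →
        ψ x = ψ y) → Robust G ψ

open Classical in
/-- The number of walks with `k` edges from the vertex `x` to the vertices of colour `a`. -/
noncomputable def walks (G : SimpleGraph V) (χ : V → ℕ) (a : ℕ) : ℕ → V → ℕ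
  | 0, x => if χ x = a then 1 else 0
  | k + 1, x => ∑ y ∈ Finset.univ.filter (fun y => G.Adj x y), walks G χ a k y

open Classical in
/-- The number of walks with `k` edges from `x` to `v`. -/
noncomputable def walksTo (G : SimpleGraph V) (v : V) (k : ℕ) (x : V) : ℕ :=
  walks G (fun y => if y = v then 1 else 0) 1 k x

open Classical in
/-- The full space: the span of the functions which count the walks of a given length from a
vertex to the vertices of a given colour of a robust colouring, and of the indicator functions of
the classes of the exact one-step refinements of the robust colourings. -/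
noncomputable def fullSpace (G : SimpleGraph V) : Submodule ℝ (V → ℝ) :=
  Submodule.span ℝ {F | ∃ χ, Robust G χ ∧ ∃ a k, F = fun x => (walks G χ a k x : ℝ)} ⊔
  Submodule.span ℝ {F | ∃ χ, Robust G χ ∧ ∃ x₀,
    F = fun x => if χ x = χ x₀ ∧ ∀ a, colourDeg G χ a x = colourDeg G χ a x₀ then 1 else 0}

open Classical in
/-- The card space at `v`: the span of the functions which count the walks of a given length of
`G - v` from a vertex into a colour of a robust colouring of `G`, of the indicator functions of
the classes of vertices with the same colour and the same numbers of neighbours of each colour in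
`G - v`, and of the indicator function of `v`. -/
noncomputable def cardSpace (G : SimpleGraph V) (v : V) : Submodule ℝ (V → ℝ) :=
  (Submodule.span ℝ {F | ∃ χ, Robust G χ ∧ ∃ a k, F = fun x => (walks (cut G v) χ a k x : ℝ)} ⊔
  Submodule.span ℝ {F | ∃ χ, Robust G χ ∧ ∃ x₀, F = fun x =>
    if χ x = χ x₀ ∧ ∀ a, colourDeg (cut G v) χ a x = colourDeg (cut G v) χ a x₀ then 1 else 0}) ⊔
  Submodule.span ℝ {fun x => if x = v then 1 else 0}

/-- `G'` has the same walk data as `G`, up to a permutation of the vertices which fixes `v` and
preserves the robust colourings of `G`: for each vertex the same numbers of walks into the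
colours, the same numbers of closed walks and the same numbers of neighbours in the classes of the
one-step refinements. -/
def SameWalks (G G' : SimpleGraph V) (v : V) : Prop :=
  ∃ κ : Equiv.Perm V, κ v = v ∧ ∀ x : V,
    (∀ χ, Robust G χ → χ (κ x) = χ x ∧
      (∀ a k, walks G' χ a k (κ x) = walks G χ a k x) ∧
      (∀ c μ, classDeg G' χ c μ (κ x) = classDeg G χ c μ x)) ∧
    (∀ k, walksTo G' (κ x) k (κ x) = walksTo G x k x)

end

section aux
open Pool.Agent.X79.RW

theorem cut_eq {V : Type} (G : SimpleGraph V) (v : V) : cut G v = cutG G v := rfl

variable {V : Type} [Fintype V] [DecidableEq V]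

theorem walks_eq (G : SimpleGraph V) (χ : V → ℕ) (a k : ℕ) :
    (fun x => (walks G χ a k x : ℝ)) = (adjR G ^ k).mulVec (ind χ a) := by
  classical
  induction k with
  | zero =>
    rw [pow_zero, Matrix.one_mulVec]
    funext x
    unfold walks ind
    split_ifs <;> simp
  | succ k ih =>
    rw [pow_succ', ← Matrix.mulVec_mulVec, ← ih]
    funext x
    show ((walks G χ a (k + 1) x : ℕ) : ℝ) = ∑ y, adjR G x y * (walks G χ a k y : ℝ)
    rw [walks, Finset.sum_filter]
    push_cast
    apply Finset.sum_congr rfl
    intro y _
    unfold adjR
    split_ifs <;> simp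

theorem walksTo_eq (G : SimpleGraph V) (v : V) (k : ℕ) :
    (fun x => (walksTo G v k x : ℝ)) = (adjR G ^ k).mulVec (Pi.single v 1) := by
  classical
  unfold walksTo
  rw [walks_eq]
  congr 1
  funext x
  unfold ind
  by_cases hx : x = v
  · subst hx
    simp
  · rw [Pi.single_eq_of_ne hx]
    simp [hx]

theorem walksTo_self (G : SimpleGraph V) (x : V) (k : ℕ) :
    (walksTo G x k x : ℝ) = (adjR G ^ k) x x := by
  have := congrFun (walksTo_eq G x k) x
  rw [Matrix.mulVec_single_one, Matrix.col_apply] at this
  exact this

theorem robust_rec (G : SimpleGraph V) (hn : 3 ≤ Fintype.card V) (χ : V → ℕ)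
    (h : Robust G χ) : Rec G χ := by
  induction h with
  | const => exact rec_triv G
  | refine χ ψ _ hs ih => exact rec_refine G hn χ ψ ih hs

theorem fullSpace_eq (G : SimpleGraph V) : fullSpace G = nsp G {χ | Robust G χ} := by
  unfold fullSpace nsp
  rw [Submodule.span_union]
  congr 1
  congr 1
  ext F
  constructor
  · rintro ⟨χ, hχ, a, k, rfl⟩
    exact ⟨χ, hχ, a, k, walks_eq G χ a k⟩
  · rintro ⟨χ, hχ, a, k, rfl⟩
    exact ⟨χ, hχ, a, k, (walks_eq G χ a k).symm⟩

theorem cardSpace_eq (G : SimpleGraph V) (v : V) :
    cardSpace G v = csp G {χ | Robust G χ} v := by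
  unfold cardSpace csp
  rw [Submodule.span_union, Submodule.span_union]
  congr 1
  · congr 1
    congr 1
    ext F
    constructor
    · rintro ⟨χ, hχ, a, k, rfl⟩
      refine ⟨χ, hχ, a, k, ?_⟩
      rw [walks_eq, cut_eq, cutG_eq]
    · rintro ⟨χ, hχ, a, k, rfl⟩
      refine ⟨χ, hχ, a, k, ?_⟩
      rw [walks_eq, cut_eq, cutG_eq]
  · congr 2
    funext x
    by_cases hx : x = v
    · subst hx
      simp
    · simp [hx]

end aux

open Classical in
/-- Let `G` be a graph with at least three vertices and `v` a vertex of `G`.
(1) If for every `k` the function which counts the walks with `k` edges from `x` to `v` lies in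
the full space of `G`, and any two vertices of `G - v` which have the same walk numbers in `G - v`
into the colours of the robust colourings of `G` are twins in `G - v`, then `T(G)` and `T(Gᶜ)` are
reconstructible.
(2) If `c` is the codimension of the card space at `v`, there are at most `2 ^ c` isomorphism
types of truncated clique lattices with the same deck as `T(G)`, and at most that many with the
same deck as `T(Gᶜ)`.
(3) If every graph `G'` with `G' - v = G - v` which has the same walk data as `G` is isomorphic to
`G`, then `T(G)` and `T(Gᶜ)` are reconstructible. -/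
theorem result : ∀ (V : Type) [Fintype V] (G : SimpleGraph V), 3 ≤ Fintype.card V → ∀ v : V,
    ((∀ k, (fun x => (walksTo G v k x : ℝ)) ∈ fullSpace G) →
      (∀ x y, x ≠ v → y ≠ v → x ≠ y →
        (∀ χ, Robust G χ → ∀ a k, walks (cut G v) χ a k x = walks (cut G v) χ a k y) →
        ∀ z, z ≠ v → z ≠ x → z ≠ y → (G.Adj x z ↔ G.Adj y z)) →
      Reconstructible G ∧ Reconstructible Gᶜ) ∧
    (∀ c : ℕ, c = Fintype.card V - Module.finrank ℝ (cardSpace G v) →
      AtMost G (2 ^ c) ∧ AtMost Gᶜ (2 ^ c)) ∧
    ((∀ G' : SimpleGraph V, (∀ x y, x ≠ v → y ≠ v → (G'.Adj x y ↔ G.Adj x y)) →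
      SameWalks G G' v → Nonempty (G ≃g G')) →
      Reconstructible G ∧ Reconstructible Gᶜ) := by
  intro V _ G hn v
  have hC : ∀ χ ∈ {χ : V → ℕ | Robust G χ}, Pool.Agent.X79.RW.Rec G χ :=
    fun χ hχ => robust_rec G hn χ hχ
  refine ⟨?_, ?_, ?_⟩
  · intro hv hT
    apply Pool.Agent.X79.RW.rec_of_all G
    intro H π hh
    have := Pool.Agent.X79.RW.one_vertex G hn _ hC v (by
      intro k
      rw [← fullSpace_eq, ← walksTo_eq]
      exact hv k) (by
      intro x x' hx hx' hne hΓ y hy hyx hyx'
      apply hT x x' hx hx' hne ?_ y hy hyx hyx'
      intro χ hχ a k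
      have h1 := congrFun hΓ (⟨χ, hχ⟩, a, k)
      have h2 := congrFun (walks_eq (cut G v) χ a k) x
      have h3 := congrFun (walks_eq (cut G v) χ a k) x'
      rw [cut_eq, Pool.Agent.X79.RW.cutG_eq] at h2 h3
      have h4 : (walks (cut G v) χ a k x : ℝ) = (walks (cut G v) χ a k x' : ℝ) := by
        rw [cut_eq, h2, h3]; exact h1
      exact_mod_cast h4) H π hh
    exact ⟨Equiv.refl V, fun x y => by rw [this]; rfl⟩
  · intro c hc
    rw [cardSpace_eq] at hc
    apply Pool.Agent.X79.RW.atMost_of' G
    intro ι _ H hH hne
    rw [hc]
    exact Pool.Agent.X79.RW.count_card G hn _ hC v ι H hH hne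
  · intro hG
    apply Pool.Agent.X79.RW.rec_of_all G
    intro H π hh
    apply Pool.Agent.X79.RW.one_card G hn _ hC v ?_ H π hh
    rintro G' h1 ⟨κ, k1, k2, k3, k4, k5⟩
    have hW : SameWalks G G' v := by
      refine ⟨κ, k1, fun x => ⟨fun χ hχ => ⟨k2 χ hχ x, fun a k => ?_, fun c μ => ?_⟩,
        fun k => ?_⟩⟩
      · have e1 := congrFun (walks_eq G' χ a k) (κ x)
        have e2 := congrFun (walks_eq G χ a k) x
        have e3 : (walks G' χ a k (κ x) : ℝ) = (walks G χ a k x : ℝ) := by
          rw [e1, e2]; exact k3 χ hχ a k x
        exact_mod_cast e3
      · exact k5 χ hχ c μ x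
      · have e3 : (walksTo G' (κ x) k (κ x) : ℝ) = (walksTo G x k x : ℝ) := by
          rw [walksTo_self, walksTo_self, k4]
        exact_mod_cast e3
    obtain ⟨e⟩ := hG G' h1 hW
    exact ⟨e.toEquiv, fun x y => e.map_rel_iff⟩

end Pool.Agent.Results.MP_552896_co.OneCard
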