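import Pool.Agent.X76.MD4

set_option autoImplicit false

/-!
# Graphs with a small module, and their complements

`T(G)` is the set of nonempty cliques of `G` ordered by inclusion.  A module of `G` is a set `M` of
vertices such that every vertex outside `M` is adjacent to all or to none of the vertices of `M`.
Let `G` have `n` vertices.  `T(G)` and `T` of the complement of `G` are reconstructible from their
decks of maximal filter deleted subsets if `G` has a module `M` with `|M| ≤ n / 5` such that

(A) `|M| ≥ 3`, and for some vertex `v` of `M` the graphs `G[M]` and `G[M - v]` and their complements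
are connected and no module of `G` induces a graph isomorphic to `G[M - v]`, or
(B) `|M| ≥ 2` and no two vertices of `G` have the same neighbours outside these two vertices, or
(C) `|M| ≥ 2`, `G[M]` and its complement are connected, and `G` has no module `Q` with
`2 ≤ |Q| ≤ 4` such that `G[Q]` and its complement are connected (that is, no module which induces a
path with four vertices).
-/

namespace Pool.Agent.Results.MP_552896_co.SmallModules

/-- The truncated clique lattices of `G` and `H` have the same deck of maximal filter deleted
subsets: some bijection `f` of the vertex sets is such that, for every vertex `v`, the nonempty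
cliques of `G` avoiding `v` and the nonempty cliques of `H` avoiding `f v`, both ordered by
inclusion, are isomorphic ordered sets. -/
def SameDeck {V W : Type} (G : SimpleGraph V) (H : SimpleGraph W) : Prop :=
  ∃ f : V ≃ W, ∀ v : V,
    Nonempty ({s : Finset V // s.Nonempty ∧ G.IsClique (s : Set V) ∧ v ∉ s} ≃o
      {t : Finset W // t.Nonempty ∧ H.IsClique (t : Set W) ∧ f v ∉ t})

/-- `T(G)` is reconstructible from its deck: every truncated clique lattice `T(H)` of a finite
graph `H` with the same deck is isomorphic to `T(G)`. -/
def Reconstructible {V : Type} (G : SimpleGraph V) : Prop :=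
  ∀ (W : Type) [Fintype W] (H : SimpleGraph W), SameDeck G H →
    Nonempty ({s : Finset V // s.Nonempty ∧ G.IsClique (s : Set V)} ≃o
      {t : Finset W // t.Nonempty ∧ H.IsClique (t : Set W)})

/-- `M` is a module of `G`: every vertex outside `M` which is adjacent to some vertex of `M` is
adjacent to all vertices of `M`. -/
def Module {V : Type} (G : SimpleGraph V) (M : Finset V) : Prop :=
  ∀ y, y ∉ M → ∀ a ∈ M, ∀ b ∈ M, G.Adj y a → G.Adj y b

open Classical in
/-- `M` is the disjoint union of two nonempty sets with all or no edges between them: `G[M]` or its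
complement is not connected. -/
def Splits {V : Type} (G : SimpleGraph V) (M : Finset V) : Prop :=
  ∃ P Q : Finset V, P.Nonempty ∧ Q.Nonempty ∧ Disjoint P Q ∧ P ∪ Q = M ∧
    ((∀ a ∈ P, ∀ b ∈ Q, G.Adj a b) ∨ (∀ a ∈ P, ∀ b ∈ Q, ¬ G.Adj a b))

open Classical in
/-- Let `M` be a module of `G` with at most a fifth of the vertices of `G`. `T(G)` and `T(Gᶜ)` are
reconstructible if
(A) `M` has at least three vertices, `v ∈ M`, neither `M` nor `M - v` splits, and no module of `G`
induces a graph isomorphic to `G[M - v]`, or
(B) `M` has at least two vertices, and any two vertices of `G` are separated by a third vertex, or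
(C) `M` has at least two vertices and does not split, and every module with at least two vertices
which does not split has at least five vertices. -/
theorem result {V : Type} [Fintype V] (G : SimpleGraph V) (M : Finset V) (hM : Module G M)
    (hn : 5 * M.card ≤ Fintype.card V) :
    (∀ v ∈ M, 3 ≤ M.card → ¬ Splits G M → ¬ Splits G (M.erase v) →
      (∀ Q : Finset V, Module G Q →
        IsEmpty (G.induce (Q : Set V) ≃g G.induce ((M.erase v : Finset V) : Set V))) →
      Reconstructible G ∧ Reconstructible Gᶜ) ∧
    (2 ≤ M.card → (∀ a b : V, a ≠ b → ∃ x, x ≠ a ∧ x ≠ b ∧ ¬ (G.Adj a x ↔ G.Adj b x)) →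
      Reconstructible G ∧ Reconstructible Gᶜ) ∧
    (2 ≤ M.card → ¬ Splits G M →
      (∀ Q : Finset V, Module G Q → 2 ≤ Q.card → ¬ Splits G Q → 5 ≤ Q.card) →
      Reconstructible G ∧ Reconstructible Gᶜ) := by
  have hm : ∀ Q : Finset V, Module G Q ↔ Pool.Agent.X76.MD.ModIn G Set.univ Q := fun Q =>
    ⟨fun h y _ => h y, fun h y => h y (Set.mem_univ y)⟩
  have hM' := (hm M).1 hM
  refine ⟨?_, ?_, ?_⟩
  · intro v hv h3 hs hs' hno
    refine Pool.Agent.X76.MD.part_A G hM' hv h3 hs hs' hn (fun Q hQ hsame => ?_)
    obtain ⟨e, he⟩ := hsame.symm
    exact (hno Q ((hm Q).2 hQ)).false ⟨e, fun {a b} => he a b⟩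
  · intro h2 htw
    exact Pool.Agent.X76.MD.part_B G M hM' h2 hn htw
  · intro h2 hs h5
    exact Pool.Agent.X76.MD.part_C G M hM' h2 hs hn (fun Q hQ => h5 Q ((hm Q).2 hQ))

end Pool.Agent.Results.MP_552896_co.SmallModules
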