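import Pool.Agent.X76.TW6

set_option autoImplicit false

/-!
# Graphs with twins, and their complements

`T(G)` is the set of nonempty cliques of `G` ordered by inclusion.  Two vertices of `G` are twins if
they have the same neighbours; this is an equivalence relation.  For a graph `G` with at least ten
vertices `T(G)` and `T` of the complement of `G` are reconstructible from their decks of maximal
filter deleted subsets if

(A) some twin class has `c ≥ 2` vertices and no twin class has `c - 1` vertices, or
(B) `G` has `s` different neighbourhoods and `s (s + 1) / 2` is smaller than the number of vertices,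
or
(C) a vertex `v` has a twin `v'`, and for every vertex `u` of `G - v` which has as many twins in
`G - v` as `v'` and, for every `i`, as many neighbours of degree `i` in `G - v` as `v'`, some
automorphism of `G - v` maps `v'` to `u`, or
(D) `p` twin classes have at least two vertices and the graph induced by one vertex of every twin
class has fewer than `(3/2)^p / 2` automorphisms.
-/

namespace Pool.Agent.Results.MP_552896_co.TwinClasses

/-- The truncated clique lattices of `G` and `H` have the same deck of maximal filter deleted
subsets: some bijection `f` of the vertex sets is such that, for every vertex `v`, the nonempty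
cliques of `G` avoiding `v` and the nonempty cliques of `H` avoiding `f v`, both ordered by
inclusion, are isomorphic ordered sets. -/
def SameDeck {V W : Type} (G : SimpleGraph V) (H : SimpleGraph W) : Prop :=
  ∃ f : V ≃ W, ∀ v : V,
    Nonempty ({s : Finset V // s.Nonempty ∧ G.IsClique (s : Set V) ∧ v ∉ s} ≃o
      {t : Finset W // t.Nonempty ∧ H.IsClique (t : Set W) ∧ f v ∉ t})

/-- `T(G)` is reconstructible from its deck: every truncated clique lattice `T(H)` of a finite
graph `H` with the same deck is isomorphic to `T(G)`. -/
def Reconstructible {V : Type} (G : SimpleGraph V) : Prop :=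
  ∀ (W : Type) [Fintype W] (H : SimpleGraph W), SameDeck G H →
    Nonempty ({s : Finset V // s.Nonempty ∧ G.IsClique (s : Set V)} ≃o
      {t : Finset W // t.Nonempty ∧ H.IsClique (t : Set W)})

/-- `a` and `b` are twins: they have the same neighbours. -/
def Twins {V : Type} (G : SimpleGraph V) (a b : V) : Prop := ∀ x, G.Adj a x ↔ G.Adj b x

open Classical in
/-- The number of vertices of the twin class of `a`. -/
noncomputable def size {V : Type} [Fintype V] (G : SimpleGraph V) (a : V) : ℕ :=
  (Finset.univ.filter (fun b => Twins G a b)).card

open Classical in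
/-- The number of vertices of the twin class of `u` in `G - v`. -/
noncomputable def cardSize {V : Type} [Fintype V] (G : SimpleGraph V) (v u : V) : ℕ :=
  (Finset.univ.filter (fun x => x ≠ v ∧ ∀ y, y ≠ v → (G.Adj u y ↔ G.Adj x y))).card

open Classical in
/-- The degree of `y` in `G - v`. -/
noncomputable def cardDegree {V : Type} [Fintype V] (G : SimpleGraph V) (v y : V) : ℕ :=
  (Finset.univ.filter (fun x => x ≠ v ∧ G.Adj y x)).card

open Classical in
/-- The number of neighbours of `u` in `G - v` which have degree `i` in `G - v`. -/
noncomputable def cardProfile {V : Type} [Fintype V] (G : SimpleGraph V) (v u : V) (i : ℕ) : ℕ :=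
  (Finset.univ.filter (fun y => y ≠ v ∧ G.Adj u y ∧ cardDegree G v y = i)).card

open Classical in
/-- Let `G` have at least ten vertices. `T(G)` and `T(Gᶜ)` are reconstructible if
(A) some twin class has `c ≥ 2` vertices and no twin class has `c - 1` vertices, or
(B) `G` has `s` different neighbourhoods and `s (s + 1)` is smaller than twice the number of
vertices, or
(C) `v` has a twin `v'`, and for every vertex `u` of `G - v` whose twin class in `G - v` is as large
as that of `v'` and which, for every `i`, has as many neighbours of degree `i` in `G - v` as `v'`,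
some automorphism of `G - v` maps `v'` to `u`, or
(D) `S` contains exactly one vertex of every twin class, `p` of its vertices are in twin classes
with at least two vertices, and the graph induced by `S` has fewer than `(3/2)^p / 2`
automorphisms. -/
theorem result {V : Type} [Fintype V] (G : SimpleGraph V) (hn : 10 ≤ Fintype.card V) :
    ((∃ v, 2 ≤ size G v ∧ ∀ u, size G u + 1 ≠ size G v) →
      Reconstructible G ∧ Reconstructible Gᶜ) ∧
    (∀ s : ℕ, s = (Finset.univ.image (fun v => Finset.univ.filter (fun y => G.Adj v y))).card →
      s * (s + 1) < 2 * Fintype.card V → Reconstructible G ∧ Reconstructible Gᶜ) ∧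
    (∀ v v' : V, v' ≠ v → Twins G v v' →
      (∀ u : V, u ≠ v → cardSize G v u = cardSize G v v' →
        (∀ i : ℕ, cardProfile G v u i = cardProfile G v v' i) →
        ∃ σ : Equiv.Perm V, σ v = v ∧ σ v' = u ∧
          ∀ x y, x ≠ v → y ≠ v → (G.Adj (σ x) (σ y) ↔ G.Adj x y)) →
      Reconstructible G ∧ Reconstructible Gᶜ) ∧
    (∀ (S : Finset V) (p : ℕ), (∀ v, ∃! s, s ∈ S ∧ Twins G v s) →
      p = (S.filter (fun s => 2 ≤ size G s)).card →
      2 * (Nat.card (G.induce (S : Set V) ≃g G.induce (S : Set V)) : ℝ) < (3 / 2 : ℝ) ^ p →
      Reconstructible G ∧ Reconstructible Gᶜ) := by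
  refine ⟨fun h => Pool.Agent.X76.TW.main_gap G hn h, ?_, ?_, ?_⟩
  · intro s hs h
    subst hs
    exact Pool.Agent.X76.TW.main_gap G hn (Pool.Agent.X76.TW.exists_gap G (by convert h))
  · intro v v' hv ht h
    have e1 : ∀ u, cardSize G v u = Pool.Agent.X76.TW.clO G v u := by
      intro u
      unfold cardSize Pool.Agent.X76.TW.clO Pool.Agent.X76.TW.TwO
      congr
    have e2 : ∀ u i, cardProfile G v u i = Pool.Agent.X76.TW.nd G v u i := by
      intro u i
      unfold cardProfile Pool.Agent.X76.TW.nd cardDegree Pool.Agent.X76.TW.dg
      congr
    refine Pool.Agent.X76.TW.main_orbit G hn v v' hv ht (fun u h1 h2 h3 => h u h1 ?_ ?_)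
    · rw [e1, e1]; exact h2
    · intro i
      rw [e2, e2]; exact h3 i
  · intro S p hS hp h
    refine Pool.Agent.X76.TW.main_aut G hn S hS p ?_ h
    intro D
    rw [hp]
    congr 1
    ext x
    rw [Finset.mem_filter, Finset.mem_filter]
    exact Iff.rfl

end Pool.Agent.Results.MP_552896_co.TwinClasses
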