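import Pool.Agent.X79.RW6

set_option autoImplicit false

/-!
# Walk numbers, robust colourings and the number of reconstructions

`T(G)` is the set of nonempty cliques of `G` ordered by inclusion.

A colouring of the vertices of `G` is *robust* if it arises from the constant colouring by
refinements which tolerate an error of one: if `χ` is robust, then so is every colouring `ψ` which
gives the same colour to any two vertices `x`, `y` of the same `χ`-colour for which the numbers of
neighbours in the single colours of `χ` agree, with the possible exception of one colour for which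
they may differ by one. (The first refinement: vertices whose degrees differ by at most one get
the same colour.)

For a robust colouring `χ`, a colour `a` and a number `k` we count the walks with `k` edges from a
vertex `x` to the vertices of colour `a`; this is a function of `x`. These functions span the
walk space. The full space is spanned by them and by the indicator functions of the classes of the
exact one-step refinements of the robust colourings (two vertices are in the same class if they
have the same colour and the same number of neighbours of each colour; for the constant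
colouring: if they have the same degree).

The theorem, for graphs `G` with at least three vertices:

(1) Let `c` be the codimension of the full space. There are at most `2 ^ (c (c - 1) / 2)`
isomorphism types of truncated clique lattices with the same deck as `T(G)`, and the same for the
complement of `G`. In particular both are reconstructible if `c ≤ 1`.

(2) `T(G)` and `T(Gᶜ)` are reconstructible if for all but at most three vertices `v` the
neighbourhood of `v` is the only set of vertices different from `v` over which all functions in
the full space have the same sums as over the neighbourhood of `v`.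

(3) `T(G)` and `T(Gᶜ)` are reconstructible if the walk space has codimension at most two and
there is a vertex `v` such that any two vertices of `G - v` which have in `G - v` the same walk
numbers into the colours of the robust colourings of `G` are twins in `G - v`.
-/

namespace Pool.Agent.Results.MP_552896_co.WalkNumbers

/-- The truncated clique lattices of `G` and `H` have the same deck of maximal filter deleted
subsets: some bijection `f` of the vertex sets is such that, for every vertex `v`, the nonempty
cliques of `G` avoiding `v` and the nonempty cliques of `H` avoiding `f v`, both ordered by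
inclusion, are isomorphic ordered sets. -/
def SameDeck {V W : Type} (G : SimpleGraph V) (H : SimpleGraph W) : Prop :=
  ∃ f : V ≃ W, ∀ v : V,
    Nonempty ({s : Finset V // s.Nonempty ∧ G.IsClique (s : Set V) ∧ v ∉ s} ≃o
      {t : Finset W // t.Nonempty ∧ H.IsClique (t : Set W) ∧ f v ∉ t})

/-- `T(G)` is reconstructible from its deck: every truncated clique lattice `T(H)` of a finite
graph `H` with the same deck is isomorphic to `T(G)`. -/
def Reconstructible {V : Type} (G : SimpleGraph V) : Prop :=
  ∀ (W : Type) [Fintype W] (H : SimpleGraph W), SameDeck G H →
    Nonempty ({s : Finset V // s.Nonempty ∧ G.IsClique (s : Set V)} ≃o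
      {t : Finset W // t.Nonempty ∧ H.IsClique (t : Set W)})

/-- There are at most `m` isomorphism types of truncated clique lattices `T(H)` of finite graphs
`H` with the same deck as `T(G)`: every finite family of pairwise non-isomorphic such lattices has
at most `m` members. -/
def AtMost {V : Type} (G : SimpleGraph V) (m : ℕ) : Prop :=
  ∀ (ι : Type) [Fintype ι] (W : ι → Type) [∀ i, Fintype (W i)] (H : ∀ i, SimpleGraph (W i)),
    (∀ i, SameDeck G (H i)) →
    (∀ i j, i ≠ j → IsEmpty ({s : Finset (W i) // s.Nonempty ∧ (H i).IsClique (s : Set (W i))} ≃o
      {t : Finset (W j) // t.Nonempty ∧ (H j).IsClique (t : Set (W j))})) →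
    Fintype.card ι ≤ m

section
variable {V : Type} [Fintype V]

open Classical in
/-- The number of neighbours of `x` with colour `a`. -/
noncomputable def colourDeg (G : SimpleGraph V) (χ : V → ℕ) (a : ℕ) (x : V) : ℕ :=
  (Finset.univ.filter (fun y => G.Adj x y ∧ χ y = a)).card

/-- Robust colourings: the constant colouring is robust, and if `χ` is robust then so is every
colouring `ψ` which gives the same colour to any two vertices `x`, `y` of the same `χ`-colour for
which the numbers of neighbours of colour `a` agree for all colours `a` except possibly one colour
`b`, for which they differ by at most one. -/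
inductive Robust (G : SimpleGraph V) : (V → ℕ) → Prop
  | const : Robust G (fun _ => 0)
  | refine (χ ψ : V → ℕ) : Robust G χ →
      (∀ x y b, χ x = χ y → (∀ a, a ≠ b → colourDeg G χ a x = colourDeg G χ a y) →
        colourDeg G χ b x ≤ colourDeg G χ b y + 1 → colourDeg G χ b y ≤ colourDeg G χ b x + 1 →
        ψ x = ψ y) → Robust G ψ

open Classical in
/-- The number of walks with `k` edges from the vertex `x` to the vertices of colour `a`. -/
noncomputable def walks (G : SimpleGraph V) (χ : V → ℕ) (a : ℕ) : ℕ → V → ℕ
  | 0, x => if χ x = a then 1 else 0
  | k + 1, x => ∑ y ∈ Finset.univ.filter (fun y => G.Adj x y), walks G χ a k y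

/-- The walk space: the span of the functions which count the walks of a given length from a
vertex to the vertices of a given colour of a robust colouring. -/
noncomputable def walkSpace (G : SimpleGraph V) : Submodule ℝ (V → ℝ) :=
  Submodule.span ℝ {F | ∃ χ, Robust G χ ∧ ∃ a k, F = fun x => (walks G χ a k x : ℝ)}

open Classical in
/-- The full space: the sum of the walk space and of the span of the indicator functions of the
classes of the exact one-step refinements of the robust colourings. -/
noncomputable def fullSpace (G : SimpleGraph V) : Submodule ℝ (V → ℝ) :=
  walkSpace G ⊔ Submodule.span ℝ {F | ∃ χ, Robust G χ ∧ ∃ x₀,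
    F = fun x => if χ x = χ x₀ ∧ ∀ a, colourDeg G χ a x = colourDeg G χ a x₀ then 1 else 0}

end

/-- The graph `G` with all edges at the vertex `v` removed (so that a walk which starts at another
vertex is a walk of `G - v`). -/
def cut {V : Type} (G : SimpleGraph V) (v : V) : SimpleGraph V where
  Adj x y := G.Adj x y ∧ x ≠ v ∧ y ≠ v
  symm := ⟨fun _ _ h => ⟨h.1.symm, h.2.2, h.2.1⟩⟩
  loopless := ⟨fun _ h => h.1.ne rfl⟩

section aux
open Pool.Agent.X79.RW
variable {V : Type} [Fintype V] [DecidableEq V]

theorem walks_eq (G : SimpleGraph V) (χ : V → ℕ) (a k : ℕ) :
    (fun x => (walks G χ a k x : ℝ)) = (adjR G ^ k).mulVec (ind χ a) := by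
  classical
  induction k with
  | zero =>
    rw [pow_zero, Matrix.one_mulVec]
    funext x
    unfold walks ind
    split_ifs <;> simp
  | succ k ih =>
    rw [pow_succ', ← Matrix.mulVec_mulVec, ← ih]
    funext x
    show ((walks G χ a (k + 1) x : ℕ) : ℝ) = ∑ y, adjR G x y * (walks G χ a k y : ℝ)
    rw [walks, Finset.sum_filter]
    push_cast
    apply Finset.sum_congr rfl
    intro y _
    unfold adjR
    split_ifs <;> simp

theorem robust_rec (G : SimpleGraph V) (hn : 3 ≤ Fintype.card V) (χ : V → ℕ)
    (h : Robust G χ) : Rec G χ := by
  induction h with
  | const => exact rec_triv G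
  | refine χ ψ _ hs ih => exact rec_refine G hn χ ψ ih hs

theorem walkSpace_eq (G : SimpleGraph V) : walkSpace G = wsp G {χ | Robust G χ} := by
  unfold walkSpace wsp
  congr 1
  ext F
  constructor
  · rintro ⟨χ, hχ, a, k, rfl⟩
    exact ⟨χ, hχ, a, k, walks_eq G χ a k⟩
  · rintro ⟨χ, hχ, a, k, rfl⟩
    exact ⟨χ, hχ, a, k, (walks_eq G χ a k).symm⟩

theorem fullSpace_eq (G : SimpleGraph V) : fullSpace G = nsp G {χ | Robust G χ} := by
  unfold fullSpace nsp
  rw [Submodule.span_union, walkSpace_eq]
  rfl

omit [Fintype V] in
theorem cut_eq (G : SimpleGraph V) (v : V) : adjR (cut G v) = del (adjR G) v := by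
  classical
  ext x y
  unfold adjR del cut
  by_cases hx : x = v
  · simp [hx]
  · by_cases hy : y = v
    · simp [hy]
    · by_cases hG : G.Adj x y <;> simp [hx, hy, hG]

end aux

open Classical in
/-- Let `G` be a graph with at least three vertices.
(1) If `c` is the codimension of the full space of `G`, there are at most `2 ^ (c (c - 1) / 2)`
isomorphism types of truncated clique lattices with the same deck as `T(G)`, and at most that many
with the same deck as `T(Gᶜ)`.
(2) Let `X` be a set of at most three vertices. If for each vertex `v` outside `X` the
neighbourhood of `v` is the only set `S` of vertices different from `v` such that every function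
in the full space has the same sum over `S` as over the neighbourhood of `v`, then `T(G)` and
`T(Gᶜ)` are reconstructible.
(3) If the walk space of `G` has codimension at most two, and if for some vertex `v` any two
vertices of `G - v` which have the same walk numbers in `G - v` into the colours of the robust
colourings of `G` are twins in `G - v`, then `T(G)` and `T(Gᶜ)` are reconstructible. -/
theorem result : ∀ (V : Type) [Fintype V] (G : SimpleGraph V), 3 ≤ Fintype.card V →
    (∀ c : ℕ, c = Fintype.card V - Module.finrank ℝ (fullSpace G) →
      AtMost G (2 ^ (c * (c - 1) / 2)) ∧ AtMost Gᶜ (2 ^ (c * (c - 1) / 2))) ∧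
    (∀ X : Finset V, X.card ≤ 3 →
      (∀ v, v ∉ X → ∀ S : Finset V, v ∉ S →
        (∀ F ∈ fullSpace G, ∑ x ∈ S, F x = ∑ x ∈ Finset.univ.filter (fun x => G.Adj v x), F x) →
        S = Finset.univ.filter (fun x => G.Adj v x)) →
      Reconstructible G ∧ Reconstructible Gᶜ) ∧
    (∀ v : V, Fintype.card V ≤ Module.finrank ℝ (walkSpace G) + 2 →
      (∀ x y, x ≠ v → y ≠ v → x ≠ y →
        (∀ χ, Robust G χ → ∀ a k, walks (cut G v) χ a k x = walks (cut G v) χ a k y) →
        ∀ z, z ≠ v → z ≠ x → z ≠ y → (G.Adj x z ↔ G.Adj y z)) →
      Reconstructible G ∧ Reconstructible Gᶜ) := by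
  intro V _ G hn
  have hC : ∀ χ ∈ {χ : V → ℕ | Robust G χ}, Pool.Agent.X79.RW.Rec G χ :=
    fun χ hχ => robust_rec G hn χ hχ
  refine ⟨?_, ?_, ?_⟩
  · intro c hc
    rw [fullSpace_eq] at hc
    apply Pool.Agent.X79.RW.atMost_of G
    intro ι _ H hH hinj
    rw [hc]
    exact Pool.Agent.X79.RW.count G hn _ hC ι H hH hinj
  · intro X hX hS
    apply Pool.Agent.X79.RW.rec_of_all G
    intro H π hh
    have := Pool.Agent.X79.RW.crit G hn _ hC X hX (by
      intro v hv S hvS hF
      rw [fullSpace_eq] at hS
      exact hS v hv S hvS hF) H π hh
    exact ⟨Equiv.refl V, fun x y => by rw [this]; rfl⟩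
  · intro v hc hT
    apply Pool.Agent.X79.RW.rec_of_all G
    intro H π hh
    rw [walkSpace_eq] at hc
    apply Pool.Agent.X79.RW.two G hn _ hC Robust.const hc v ?_ H π hh
    intro x x' hx hx' hne hΓ y hy hyx hyx'
    apply hT x x' hx hx' hne ?_ y hy hyx hyx'
    intro χ hχ a k
    have h1 := congrFun hΓ (⟨χ, hχ⟩, a, k)
    have h2 := congrFun (walks_eq (cut G v) χ a k) x
    have h3 := congrFun (walks_eq (cut G v) χ a k) x'
    rw [cut_eq] at h2 h3
    have h4 : (walks (cut G v) χ a k x : ℝ) = (walks (cut G v) χ a k x' : ℝ) := by
      rw [h2, h3]; exact h1
    exact_mod_cast h4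

end Pool.Agent.Results.MP_552896_co.WalkNumbers
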